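import Mathlib

set_option autoImplicit false

/-!
# Chernoff's factor function is not hyperbolically completely monotone

Let `g` be the function with Fourier transform `2^{1/3} / Ai(i 2^{-1/3} λ)`.  If
`p(x) = g(log x)/x` were hyperbolically completely monotone, then for each `a` the product
`g(a+t) g(a-t)` would be a nonincreasing convex function of `2 cosh t`.  Monotonicity makes the
ratios `g(z+h)/g(z)` nonincreasing in `z`; hence `g` has exponential moments, and
`M(s) Ai(2^{-1/3} s) = 2^{1/3}` for the two-sided Laplace transform `M`.  As `Ai` has a negative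
zero, the ratios have a finite limit `e^{κh}` at `-∞`, and `-2^{-1/3} κ` is the first zero of
`Ai`.  Convexity survives the limit `a → -∞`: `K(z) = g(z) e^{-κz}` is a nonincreasing convex
function of `e^z`, so that `D(z) = g(z) - e^{-κh} g(z+h) ≥ c e^{(κ+1)z}` for `z ≤ 0`.  But the
transform of `D ≥ 0` is `M(s)(1 - e^{-(s+κ)h})`, which continues analytically beyond `s = -κ-1`,
as `Ai` has no zero within `2^{-1/3}` to the left of its first zero (Sturm comparison); by
Landau's lemma the integral `∫ e^{sz} D(z) dz` converges at `s = -κ-1`, a contradiction.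
-/

namespace Pool.Agent.Results.MP_b46d52_pr.NotHM
open MeasureTheory ProbabilityTheory Filter Topology Set

/-- `G` is completely monotone on `(2,∞)`: it is `C^∞` there and `(-1)^n G^{(n)} ≥ 0`. -/
def CMOnIoiTwo (G : ℝ → ℝ) : Prop :=
  ContDiffOn ℝ ((⊤ : ℕ∞) : WithTop ℕ∞) G (Ioi 2) ∧
    ∀ n : ℕ, ∀ w : ℝ, 2 < w → 0 ≤ (-1) ^ n * iteratedDeriv n G w

/-- The class `HM_∞`: for every `u > 0` the product `f(uv) f(u/v)` is a completely monotone
function `G` of `w = v + 1/v`, `w ∈ (2,∞)`. -/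
def IsHM (f : ℝ → ℝ) : Prop :=
  ∀ u : ℝ, 0 < u → ∃ G : ℝ → ℝ, CMOnIoiTwo G ∧
    ∀ v : ℝ, 0 < v → v ≠ 1 → f (u * v) * f (u / v) = G (v + 1 / v)

lemma CM_antitone {G : ℝ → ℝ} (h : CMOnIoiTwo G) : AntitoneOn G (Ioi 2) := by
  have hd : DifferentiableOn ℝ G (Ioi 2) := h.1.differentiableOn (by simp)
  apply antitoneOn_of_deriv_nonpos (convex_Ioi 2) hd.continuousOn (by rwa [interior_Ioi])
  intro x hx
  rw [interior_Ioi] at hx
  have := h.2 1 x hx
  rw [iteratedDeriv_one] at this
  linarith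

lemma CM_convex {G : ℝ → ℝ} (h : CMOnIoiTwo G) : ConvexOn ℝ (Ioi 2) G := by
  have hd : DifferentiableOn ℝ G (Ioi 2) := h.1.differentiableOn (by simp)
  have hd2 : ContDiffOn ℝ 1 (deriv G) (Ioi 2) := by
    refine ((contDiffOn_succ_iff_deriv_of_isOpen (n := 1) isOpen_Ioi).1 (h.1.of_le ?_)).2.2
    have h3 : ((1 : WithTop ℕ∞) + 1) = (((2 : ℕ∞)) : WithTop ℕ∞) := by
      norm_num
    rw [h3]
    exact WithTop.coe_le_coe.2 le_top
  apply convexOn_of_deriv2_nonneg' (convex_Ioi 2) hd (hd2.differentiableOn (by simp))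
  intro x hx
  have := h.2 2 x hx
  rw [iteratedDeriv_eq_iterate] at this
  simpa using this

lemma HM_facts {g : ℝ → ℝ} (h : IsHM (fun x => g (Real.log x) / x)) (a : ℝ) :
    ∃ G : ℝ → ℝ, AntitoneOn G (Ioi 2) ∧ ConvexOn ℝ (Ioi 2) G ∧
      ∀ t : ℝ, t ≠ 0 → g (a + t) * g (a - t) = G (2 * Real.cosh t) := by
  obtain ⟨G, hG, hG2⟩ := h (Real.exp a) (Real.exp_pos a)
  refine ⟨fun w => Real.exp (2*a) * G w, ?_, ?_, ?_⟩
  · intro x hx y hy hxy
    have := CM_antitone hG hx hy hxy
    have h2 := Real.exp_pos (2*a)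
    simp only
    gcongr
  · exact (CM_convex hG).smul (Real.exp_pos _).le
  · intro t ht
    have h1 := hG2 (Real.exp t) (Real.exp_pos t) (by simpa using ht)
    have h2 : Real.exp a * Real.exp t = Real.exp (a+t) := (Real.exp_add _ _).symm
    have h3 : Real.exp a / Real.exp t = Real.exp (a-t) := (Real.exp_sub _ _).symm
    have h4 : Real.exp t + 1/Real.exp t = 2 * Real.cosh t := by
      rw [Real.cosh_eq, Real.exp_neg]; ring
    simp only at h1
    rw [h2, h3, h4, Real.log_exp, Real.log_exp] at h1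
    simp only
    rw [← h1, show 2*a = (a+t)+(a-t) by ring, Real.exp_add]
    have := Real.exp_pos (a+t)
    have := Real.exp_pos (a-t)
    field_simp

lemma two_lt {t : ℝ} (ht : t ≠ 0) : 2 < 2 * Real.cosh t := by
  have := Real.one_lt_cosh.2 ht
  linarith

/-- ratio -/
noncomputable def R (g : ℝ → ℝ) (h z : ℝ) : ℝ := g (z + h) / g z

section
variable {g : ℝ → ℝ} (hpos : ∀ z, 0 < g z)
include hpos

lemma cross (hf : ∀ a : ℝ, ∃ G : ℝ → ℝ, AntitoneOn G (Ioi 2) ∧ ConvexOn ℝ (Ioi 2) G ∧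
      ∀ t : ℝ, t ≠ 0 → g (a + t) * g (a - t) = G (2 * Real.cosh t)) {h : ℝ} (hh : 0 < h) {z z' : ℝ} (hz : z < z') (hne : z' ≠ z + h) :
    R g h z' ≤ R g h z := by
  obtain ⟨G, hG, _, hG2⟩ := hf ((z+z'+h)/2)
  have h1 := hG2 ((z'+h-z)/2) (by linarith)
  have hne' : (z+h-z')/2 ≠ 0 := by
    intro h0; apply hne; linarith
  have h2 := hG2 ((z+h-z')/2) hne'
  have h3 : G (2 * Real.cosh ((z'+h-z)/2)) ≤ G (2 * Real.cosh ((z+h-z')/2)) := by
    apply hG (two_lt hne') (two_lt (by linarith))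
    have : Real.cosh ((z+h-z')/2) ≤ Real.cosh ((z'+h-z)/2) := by
      rw [Real.cosh_le_cosh, abs_le]
      rw [abs_of_pos (by linarith : (0:ℝ) < (z'+h-z)/2)]
      constructor <;> linarith
    linarith
  rw [← h1, ← h2] at h3
  rw [show (z+z'+h)/2 + (z'+h-z)/2 = z'+h by ring, show (z+z'+h)/2 - (z'+h-z)/2 = z by ring,
    show (z+z'+h)/2 + (z+h-z')/2 = z+h by ring, show (z+z'+h)/2 - (z+h-z')/2 = z' by ring] at h3
  unfold R
  rw [div_le_div_iff₀ (hpos _) (hpos _)]
  exact h3

lemma R_antitone (hf : ∀ a : ℝ, ∃ G : ℝ → ℝ, AntitoneOn G (Ioi 2) ∧ ConvexOn ℝ (Ioi 2) G ∧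
      ∀ t : ℝ, t ≠ 0 → g (a + t) * g (a - t) = G (2 * Real.cosh t)) {h : ℝ} (hh : 0 < h) : Antitone (R g h) := by
  intro z z' hz
  rcases hz.eq_or_lt with rfl | hz
  · exact le_rfl
  · by_cases hne : z' = z + h
    · have h1 := cross hpos hf hh (z := z) (z' := z + h/2) (by linarith) (by linarith)
      have h2 := cross hpos hf hh (z := z+h/2) (z' := z') (by linarith) (by rw [hne]; linarith)
      exact h2.trans h1
    · exact cross hpos hf hh hz hne

lemma R_pos (h z : ℝ) : 0 < R g h z := by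
  unfold R
  have := hpos z
  have := hpos (z+h)
  positivity

lemma R_add (h h' z : ℝ) : R g (h + h') z = R g h z * R g h' (z + h) := by
  unfold R
  have := (hpos z).ne'
  have := (hpos (z+h)).ne'
  rw [show z + (h+h') = z + h + h' by ring]
  field_simp

lemma not_decr (hint : Integrable g) {h : ℝ} (hh : 0 < h) : ¬ ∀ z, g (z + h) ≤ g z := by
  intro hcon
  have hii : ∀ a b : ℝ, IntervalIntegrable g volume a b := fun a b => hint.intervalIntegrable
  set A := ∫ x in (-h)..0, g x with hA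
  have hA0 : 0 < A := by
    rw [hA]
    apply intervalIntegral.intervalIntegral_pos_of_pos (hii _ _) hpos
    linarith
  have hstep : ∀ n : ℕ, ∀ z, g z ≤ g (z - n*h) := by
    intro n
    induction n with
    | zero => intro z; simp
    | succ n ih =>
      intro z
      refine (ih z).trans ?_
      have := hcon (z - (n+1:ℕ)*h)
      rw [show z - ((n+1:ℕ):ℝ)*h + h = z - n*h by push_cast; ring] at this
      exact this
  have hJ : ∀ n : ℕ, n * A ≤ ∫ x in (-(n*h))..0, g x := by
    intro n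
    induction n with
    | zero => simp
    | succ n ih =>
      rw [← intervalIntegral.integral_add_adjacent_intervals (b := -(n*h)) (hii _ _) (hii _ _)]
      have h1 : A ≤ ∫ x in (-((n+1:ℕ)*h))..(-(n*h)), g x := by
        have h2 : ∫ x in (-((n+1:ℕ)*h))..(-(n*h)), g x = ∫ x in (-h)..0, g (x - n*h) := by
          rw [intervalIntegral.integral_comp_sub_right]
          congr 1
          · push_cast; ring
          · ring
        rw [h2, hA]
        apply intervalIntegral.integral_mono_on (by linarith) (hii _ _) ((hint.comp_sub_right (n*h)).intervalIntegrable)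
        intro x _
        exact hstep n x
      push_cast at h1 ⊢
      linarith
  have hle : ∀ n : ℕ, n * A ≤ ∫ x, g x := by
    intro n
    refine (hJ n).trans ?_
    rw [intervalIntegral.integral_of_le (by have : 0 ≤ (n:ℝ)*h := by positivity
                                            linarith)]
    exact setIntegral_le_integral hint (ae_of_all _ fun x => (hpos x).le)
  obtain ⟨n, hn⟩ := exists_nat_gt ((∫ x, g x)/A)
  rw [div_lt_iff₀ hA0] at hn
  linarith [hle n]

omit hpos in
lemma exp_right {f : ℝ → ℝ} (hf : ∀ z, 0 ≤ f z) (hint : Integrable f) {c ρ s : ℝ} (hρ : 0 < ρ)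
    (hstep : ∀ z, c ≤ z → f (z + 1) ≤ ρ * f z) (hs : Real.exp s * ρ < 1) :
    IntegrableOn (fun z => Real.exp (s * z) * f z) (Ici c) := by
  have hmeas : AEStronglyMeasurable (fun z => Real.exp (s * z) * f z) volume :=
    (Continuous.aestronglyMeasurable (by fun_prop)).mul hint.1
  refine ⟨hmeas.restrict, ?_⟩
  rw [hasFiniteIntegral_iff_ofReal (ae_of_all _ fun x => by have := hf x; positivity)]
  set F : ℝ → ENNReal := fun z => ENNReal.ofReal (Real.exp (s * z) * f z) with hF
  set θ : ENNReal := ENNReal.ofReal (Real.exp s * ρ) with hθ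
  have hθ1 : θ < 1 := by
    rw [hθ, ← ENNReal.ofReal_one]
    exact (ENNReal.ofReal_lt_ofReal_iff one_pos).2 hs
  set A : ℕ → ENNReal := fun n => ∫⁻ z in Ico (c+n) (c+n+1), F z with hA
  have hA0 : A 0 < ⊤ := by
    have h1 : IntegrableOn (fun z => Real.exp (|s| * (|c|+1)) * f z) (Ico (c+(0:ℕ)) (c+(0:ℕ)+1)) := (hint.const_mul _).integrableOn
    have h2 := h1.2
    rw [hasFiniteIntegral_iff_ofReal (ae_of_all _ fun x => by have := hf x; positivity)] at h2
    refine lt_of_le_of_lt ?_ h2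
    apply setLIntegral_mono' measurableSet_Ico
    intro z hz
    apply ENNReal.ofReal_le_ofReal
    have h3 : s * z ≤ |s| * (|c|+1) := by
      have h4 : |z| ≤ |c| + 1 := by
        rw [abs_le]
        have h5 := hz.1
        have h6 := hz.2
        push_cast at h5 h6
        constructor
        · have := neg_abs_le c; linarith
        · have := le_abs_self c; linarith
      calc s * z ≤ |s * z| := le_abs_self _
        _ = |s| * |z| := abs_mul _ _
        _ ≤ _ := by gcongr
    have := hf z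
    gcongr
  have hAs : ∀ n, A (n+1) ≤ θ * A n := by
    intro n
    have h1 : A (n+1) = ∫⁻ z in Ico (c+n) (c+n+1), F (z+1) := by
      rw [hA]
      simp only
      rw [← lintegral_indicator measurableSet_Ico, ← lintegral_indicator measurableSet_Ico,
        ← lintegral_add_right_eq_self _ (1:ℝ)]
      congr 1
      ext z
      simp only [indicator, mem_Ico]
      push_cast
      congr 1
      apply propext
      constructor <;> rintro ⟨h1, h2⟩ <;> constructor <;> linarith
    rw [h1, hA]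
    simp only
    rw [← lintegral_const_mul' _ _ (by rw [hθ]; exact ENNReal.ofReal_ne_top)]
    apply setLIntegral_mono' measurableSet_Ico
    intro z hz
    rw [hF, hθ]
    simp only
    rw [← ENNReal.ofReal_mul (by positivity)]
    apply ENNReal.ofReal_le_ofReal
    have h2 := hstep z (by have := hz.1; have h3 : (0:ℝ) ≤ n := by positivity
                           linarith)
    calc Real.exp (s * (z+1)) * f (z+1) ≤ Real.exp (s * (z+1)) * (ρ * f z) := by gcongr
      _ = _ := by rw [mul_add, mul_one, Real.exp_add]; ring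
  have hAn : ∀ n, A n ≤ θ^n * A 0 := by
    intro n
    induction n with
    | zero => simp
    | succ n ih =>
      calc A (n+1) ≤ θ * A n := hAs n
        _ ≤ θ * (θ^n * A 0) := by gcongr
        _ = _ := by rw [pow_succ]; ring
  have hcover : Ici c ⊆ ⋃ n : ℕ, Ico (c+n) (c+n+1) := by
    intro z hz
    have hz' : 0 ≤ z - c := by have : c ≤ z := hz; linarith
    rw [mem_iUnion]
    refine ⟨⌊z-c⌋₊, ?_, ?_⟩
    · have := Nat.floor_le hz'; linarith
    · have := Nat.lt_floor_add_one (z-c); linarith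
  calc ∫⁻ z in Ici c, F z ≤ ∫⁻ z in ⋃ n : ℕ, Ico (c+n) (c+n+1), F z := lintegral_mono_set hcover
    _ ≤ ∑' n, A n := lintegral_iUnion_le _ _
    _ ≤ ∑' n, θ^n * A 0 := ENNReal.tsum_le_tsum hAn
    _ = (∑' n, θ^n) * A 0 := ENNReal.tsum_mul_right
    _ = (1-θ)⁻¹ * A 0 := by rw [ENNReal.tsum_geometric]
    _ < ⊤ := by
      apply ENNReal.mul_lt_top _ hA0
      rw [ENNReal.inv_lt_top]
      exact tsub_pos_of_lt hθ1

omit hpos in
lemma exp_left {f : ℝ → ℝ} (hf : ∀ z, 0 ≤ f z) (hint : Integrable f) {c ρ s : ℝ} (hρ : 0 < ρ)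
    (hstep : ∀ z, z ≤ c → f z ≤ ρ * f (z + 1)) (hs : Real.exp (-s) * ρ < 1) :
    IntegrableOn (fun z => Real.exp (s * z) * f z) (Iic c) := by
  have h1 := exp_right (f := fun z => f (-z)) (fun z => hf _) hint.comp_neg (c := -c) (s := -s) hρ ?_ hs
  · have h2 := (Measure.measurePreserving_neg (volume : Measure ℝ)).integrableOn_comp_preimage
      (MeasurableEquiv.neg ℝ).measurableEmbedding (f := fun z => Real.exp (s * z) * f z) (s := Iic c)
    rw [← h2]
    have h3 : (Neg.neg ⁻¹' Iic c : Set ℝ) = Ici (-c) := by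
      ext x; simp
    rw [h3]
    refine h1.congr_fun (fun x _ => ?_) measurableSet_Ici
    simp
  · intro z hz
    have := hstep (-(z+1)) (by linarith)
    rw [show -(z+1)+1 = -z by ring] at this
    exact this

/-- the set of real exponents -/
def EE (g : ℝ → ℝ) : Set ℝ := {s | Integrable (fun z => Real.exp (s * z) * g z)}

lemma mem_EE_of (hint : Integrable g) {s c d : ℝ} (h1 : IntegrableOn (fun z => Real.exp (s * z) * g z) (Iic c))
    (h2 : IntegrableOn (fun z => Real.exp (s * z) * g z) (Ici d)) : s ∈ EE g := by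
  have hmid : IntegrableOn (fun z => Real.exp (s * z) * g z) (Icc c d) := by
    have h3 : IntegrableOn (fun z => Real.exp (|s| * (|c| + |d|)) * g z) (Icc c d) := (hint.const_mul _).integrableOn
    refine Integrable.mono' h3 ?_ ?_
    · exact ((Continuous.aestronglyMeasurable (by fun_prop)).mul hint.1).restrict
    · rw [ae_restrict_iff' measurableSet_Icc]
      refine ae_of_all _ fun z hz => ?_
      have := hpos z
      rw [Real.norm_eq_abs, abs_of_pos (by positivity)]
      have h4 : s * z ≤ |s| * (|c|+|d|) := by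
        have h4 : |z| ≤ |c| + |d| := by
          rw [abs_le]
          have h5 := hz.1
          have h6 := hz.2
          constructor
          · have := neg_abs_le c; have := abs_nonneg d; linarith
          · have := le_abs_self d; have := abs_nonneg c; linarith
        calc s * z ≤ |s * z| := le_abs_self _
          _ = |s| * |z| := abs_mul _ _
          _ ≤ _ := by gcongr
      gcongr
  have h5 := (h1.union hmid).union h2
  have h6 : Iic c ∪ Icc c d ∪ Ici d = univ := by
    ext x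
    simp only [mem_union, mem_Iic, mem_Icc, mem_Ici, mem_univ, iff_true]
    rcases le_total x c with h | h
    · exact Or.inl (Or.inl h)
    · rcases le_total x d with h' | h'
      · exact Or.inl (Or.inr ⟨h, h'⟩)
      · exact Or.inr h'
  rw [h6, integrableOn_univ] at h5
  exact h5

/-- the exponent at `-∞` -/
lemma exists_kappa (hint : Integrable g) (hR : ∀ h : ℝ, 0 < h → Antitone (R g h)) (hE : ∃ s : ℝ, s < 0 ∧ s ∉ EE g) :
    ∃ κ : ℝ, 0 < κ ∧ (∀ h : ℝ, 0 < h → Tendsto (R g h) atBot (𝓝 (Real.exp (κ * h)))) ∧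
      (∀ h : ℝ, 0 < h → ∀ z, R g h z ≤ Real.exp (κ * h)) ∧ (∃ ε : ℝ, 0 < ε ∧ Ioo (-κ) ε ⊆ EE g) := by
  have hgt : ∀ h : ℝ, 0 < h → ∃ z, 1 < R g h z := by
    intro h hh
    by_contra! hcon
    apply not_decr hpos hint hh
    intro z
    have := hcon z
    unfold R at this
    rwa [div_le_one (hpos z)] at this
  have hright : ∃ z, R g 1 z < 1 := by
    by_contra! hcon
    apply not_decr (g := fun z => g (-z)) (fun z => hpos _) hint.comp_neg one_pos
    intro z
    have := hcon (-(z+1))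
    unfold R at this
    rwa [one_le_div (hpos _), show -(z+1)+1 = -z by ring] at this
  -- right tail
  obtain ⟨z₁, hz₁⟩ := hright
  have hρ₁ := R_pos hpos 1 z₁
  have hrt : ∀ s : ℝ, s < - Real.log (R g 1 z₁) → IntegrableOn (fun z => Real.exp (s * z) * g z) (Ici z₁) := by
    intro s hs
    apply exp_right (fun z => (hpos z).le) hint hρ₁
    · intro z hz
      have := hR 1 one_pos hz
      unfold R at this
      rw [div_le_iff₀ (hpos z)] at this
      exact this
    · rw [← Real.exp_log hρ₁, ← Real.exp_add, Real.exp_lt_one_iff]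
      linarith
  have hε : 0 < - Real.log (R g 1 z₁) := by
    have := Real.log_neg hρ₁ hz₁
    linarith
  -- left tail
  have hlt : ∀ s T : ℝ, 0 < T → Real.exp (-s) < T → (∃ z, T ≤ R g 1 z) → s < - Real.log (R g 1 z₁) → s ∈ EE g := by
    intro s T hT hsT hz hs
    obtain ⟨z₂, hz₂⟩ := hz
    apply mem_EE_of hpos hint (c := z₂) (d := z₁) _ (hrt s hs)
    apply exp_left (fun z => (hpos z).le) hint (ρ := T⁻¹) (by positivity)
    · intro z hz
      have h1 := hR 1 one_pos hz
      have h2 := hz₂.trans h1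
      unfold R at h2
      rw [le_div_iff₀ (hpos z)] at h2
      rw [inv_mul_eq_div, le_div_iff₀ hT]
      linarith
    · rw [← div_eq_mul_inv, div_lt_one hT]; exact hsT
  -- boundedness
  have hb1 : BddAbove (range (R g 1)) := by
    by_contra hcon
    obtain ⟨s, hs, hsE⟩ := hE
    apply hsE
    rw [not_bddAbove_iff] at hcon
    obtain ⟨_, ⟨z, rfl⟩, hz⟩ := hcon (Real.exp (-s) + 1)
    exact hlt s (Real.exp (-s) + 1) (by positivity) (by linarith) ⟨z, hz.le⟩ (by linarith)
  have hbn : ∀ n : ℕ, BddAbove (range (R g ((n:ℝ)+1))) := by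
    intro n
    induction n with
    | zero => simpa using hb1
    | succ n ih =>
      obtain ⟨B, hB⟩ := ih
      obtain ⟨B1, hB1⟩ := hb1
      refine ⟨B * B1, ?_⟩
      rintro _ ⟨z, rfl⟩
      push_cast
      rw [R_add hpos]
      have h1 := hB ⟨z, rfl⟩
      have h2 := hB1 ⟨z + ((n:ℝ)+1), rfl⟩
      have h3 := R_pos hpos ((n:ℝ)+1) z
      have h4 := R_pos hpos 1 (z + ((n:ℝ)+1))
      have : 0 ≤ B := h3.le.trans h1
      exact mul_le_mul h1 h2 h4.le this
  have hb : ∀ h : ℝ, 0 < h → BddAbove (range (R g h)) := by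
    intro h hh
    obtain ⟨n, hn⟩ := exists_nat_gt h
    have hd : 0 < (n:ℝ)+1-h := by linarith
    obtain ⟨z₃, hz₃⟩ := hgt _ hd
    obtain ⟨B, hB⟩ := hbn n
    refine ⟨B, ?_⟩
    rintro _ ⟨z, rfl⟩
    set w := min z (z₃ - h) with hw
    have h1 : R g h z ≤ R g h w := hR h hh (min_le_left _ _)
    have h2 : R g ((n:ℝ)+1) w = R g h w * R g ((n:ℝ)+1-h) (w+h) := by
      rw [← R_add hpos]; congr 1; ring
    have h3 : 1 ≤ R g ((n:ℝ)+1-h) (w+h) := by
      refine hz₃.le.trans (hR _ hd ?_)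
      have := min_le_right z (z₃-h)
      linarith
    have h4 := hB ⟨w, rfl⟩
    have h5 := R_pos hpos h w
    nlinarith
  -- limits
  set ρ : ℝ → ℝ := fun h => ⨆ z, R g h z with hρ
  have hlim : ∀ h : ℝ, 0 < h → Tendsto (R g h) atBot (𝓝 (ρ h)) := fun h hh =>
    tendsto_atBot_ciSup (hR h hh) (hb h hh)
  have hle : ∀ h : ℝ, 0 < h → ∀ z, R g h z ≤ ρ h := fun h hh z => le_ciSup (hb h hh) z
  have hρ1 : ∀ h : ℝ, 0 < h → 1 < ρ h := by
    intro h hh
    obtain ⟨z, hz⟩ := hgt h hh
    exact hz.trans_le (hle h hh z)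
  have hmul : ∀ h h' : ℝ, 0 < h → 0 < h' → ρ (h+h') = ρ h * ρ h' := by
    intro h h' hh hh'
    have h1 := hlim (h+h') (by linarith)
    have h2 : Tendsto (fun z => R g h z * R g h' (z+h)) atBot (𝓝 (ρ h * ρ h')) :=
      (hlim h hh).mul ((hlim h' hh').comp (tendsto_atBot_add_const_right _ _ tendsto_id))
    have h3 : R g (h+h') = fun z => R g h z * R g h' (z+h) := funext fun z => R_add hpos h h' z
    rw [h3] at h1
    exact tendsto_nhds_unique h1 h2
  have hmono : ∀ h h' : ℝ, 0 < h → h ≤ h' → ρ h ≤ ρ h' := by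
    intro h h' hh hhh
    rcases hhh.eq_or_lt with rfl | hlt'
    · exact le_rfl
    · have h1 := hmul h (h'-h) hh (by linarith)
      rw [show h + (h'-h) = h' by ring] at h1
      have h2 := hρ1 (h'-h) (by linarith)
      have h3 := hρ1 h hh
      rw [h1]
      nlinarith
  have hpow : ∀ h : ℝ, 0 < h → ∀ n : ℕ, ρ (((n:ℝ)+1)*h) = ρ h^(n+1) := by
    intro h hh n
    induction n with
    | zero => simp
    | succ n ih =>
      have h1 := hmul (((n:ℝ)+1)*h) h (by positivity) hh
      push_cast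
      rw [show ((n:ℝ)+1+1)*h = ((n:ℝ)+1)*h + h by ring, h1, ih, ← pow_succ]
  set κ := Real.log (ρ 1) with hκ
  have hκ0 : 0 < κ := Real.log_pos (hρ1 1 one_pos)
  have hexp : ∀ h : ℝ, 0 < h → ρ h = Real.exp (κ * h) := by
    intro h hh
    have h0 : 0 < ρ h := by linarith [hρ1 h hh]
    rw [← Real.exp_log h0]
    congr 1
    -- |n log ρ h - n h κ| ≤ κ
    have hkey : ∀ n : ℕ, |((n:ℝ)+1) * (Real.log (ρ h) - κ * h)| ≤ 2 * κ := by
      intro n
      set m := ⌊((n:ℝ)+1)*h⌋₊ with hm
      have hm1 : (m:ℝ) ≤ ((n:ℝ)+1)*h := Nat.floor_le (by positivity)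
      have hm2 : ((n:ℝ)+1)*h < (m:ℝ)+1 := Nat.lt_floor_add_one _
      have hup : ρ h ^(n+1) ≤ ρ 1 ^ (m+1) := by
        rw [← hpow h hh n]
        have h2 := hpow 1 one_pos m
        rw [mul_one] at h2
        rw [← h2]
        exact hmono _ _ (by positivity) hm2.le
      have hρ10 : 0 < ρ 1 := by linarith [hρ1 1 one_pos]
      have hlow : ρ 1 ^ m ≤ ρ h ^(n+1) := by
        rcases Nat.eq_zero_or_pos m with h3 | h3
        · rw [h3, pow_zero]
          exact one_le_pow₀ (hρ1 h hh).le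
        · obtain ⟨k, hk⟩ : ∃ k, m = k+1 := ⟨m-1, by omega⟩
          rw [hk]
          have h2 := hpow 1 one_pos k
          rw [mul_one] at h2
          rw [← h2, ← hpow h hh n]
          apply hmono _ _ (by positivity)
          rw [hk] at hm1; push_cast at hm1; exact hm1
      have hup' := Real.log_le_log (by positivity) hup
      have hlow' := Real.log_le_log (by positivity) hlow
      rw [Real.log_pow, Real.log_pow] at hup' hlow'
      push_cast at hup' hlow'
      rw [← hκ] at hup' hlow'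
      rw [abs_le]
      constructor
      · nlinarith
      · nlinarith
    by_contra hne
    have hne' : 0 < |Real.log (ρ h) - κ * h| := abs_pos.2 (sub_ne_zero.2 hne)
    obtain ⟨n, hn⟩ := exists_nat_gt (2 * κ / |Real.log (ρ h) - κ * h|)
    rw [div_lt_iff₀ hne'] at hn
    have := hkey n
    rw [abs_mul, abs_of_pos (by positivity : (0:ℝ) < (n:ℝ)+1)] at this
    nlinarith
  refine ⟨κ, hκ0, ?_, ?_, - Real.log (R g 1 z₁), hε, ?_⟩
  · intro h hh; rw [← hexp h hh]; exact hlim h hh
  · intro h hh z; rw [← hexp h hh]; exact hle h hh z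
  · intro s hs
    have h1 : Real.exp (-s) < ρ 1 := by
      rw [← Real.exp_log (by linarith [hρ1 1 one_pos] : 0 < ρ 1), ← hκ]
      apply Real.exp_lt_exp.2
      have := hs.1
      linarith
    obtain ⟨T, hT1, hT2⟩ := exists_between h1
    have h2 : ∃ z, T ≤ R g 1 z := by
      obtain ⟨z, hz⟩ := exists_lt_of_lt_ciSup hT2
      exact ⟨z, hz.le⟩
    exact hlt s T (by linarith [Real.exp_pos (-s)]) hT1 h2 hs.2

end
/-- Landau's lemma for the moment generating function. -/
lemma landau (ν : Measure ℝ) (F : ℝ → ℝ) {b c : ℝ} (hbc : b ≤ c)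
    (hF : AnalyticOnNhd ℝ F (Icc b c)) (hc : c ∈ interior (integrableExpSet id ν))
    (hFc : F =ᶠ[𝓝 c] mgf id ν) : b ∈ interior (integrableExpSet id ν) := by
  by_contra hb
  set I := interior (integrableExpSet id ν) with hI
  have hIopen : IsOpen I := isOpen_interior
  have hSconv : Convex ℝ (integrableExpSet (id : ℝ → ℝ) ν) := convex_integrableExpSet
  have hIconv : Convex ℝ I := hSconv.interior
  have hIoc : I.OrdConnected := hIconv.ordConnected
  set T := I ∩ Icc b c with hT
  have hTne : T.Nonempty := ⟨c, hc, hbc, le_rfl⟩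
  have hTbdd : BddBelow T := ⟨b, fun x hx => hx.2.1⟩
  set σ := sInf T with hσ
  have hbσ : b ≤ σ := le_csInf hTne fun x hx => hx.2.1
  have hσc' : σ ≤ c := csInf_le hTbdd ⟨hc, hbc, le_rfl⟩
  have hmem : ∀ x, σ < x → x ≤ c → x ∈ I := by
    intro x hx hxc
    obtain ⟨y, hy, hyx⟩ := exists_lt_of_csInf_lt hTne hx
    exact hIoc.out hy.1 hc ⟨hyx.le, hxc⟩
  have hσI : σ ∉ I := by
    intro h
    rcases hbσ.eq_or_lt with h1 | h1
    · rw [← h1] at h; exact hb h
    · have h2 : I ∩ Ioi b ∈ 𝓝 σ := inter_mem (hIopen.mem_nhds h) (Ioi_mem_nhds h1)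
      obtain ⟨ε, hε, hball⟩ := Metric.mem_nhds_iff.1 h2
      have h3 : σ - ε/2 ∈ Metric.ball σ ε := by
        rw [Metric.mem_ball, Real.dist_eq]
        rw [show σ - ε/2 - σ = -(ε/2) by ring, abs_neg, abs_of_pos (by linarith)]
        linarith
      have h4 := hball h3
      have h5 : σ ≤ σ - ε/2 := csInf_le hTbdd ⟨h4.1, (show b < σ - ε/2 from h4.2).le, by linarith⟩
      linarith
  have hσc : σ < c := lt_of_le_of_ne hσc' (fun h => hσI (h ▸ hc))
  -- equality on (σ, c]
  have heq : EqOn F (mgf id ν) (Ioc σ c) := by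
    apply AnalyticOnNhd.eqOn_of_preconnected_of_eventuallyEq (𝕜 := ℝ) (z₀ := c)
    · exact hF.mono fun x hx => ⟨hbσ.trans hx.1.le, hx.2⟩
    · exact analyticOnNhd_mgf.mono fun x hx => hmem x hx.1 hx.2
    · exact isPreconnected_Ioc
    · exact ⟨hσc, le_rfl⟩
    · exact hFc
  -- power series at σ
  obtain ⟨p, ρ, hp⟩ := hF σ ⟨hbσ, hσc'⟩
  obtain ⟨ρ', hρ'0, hρ'⟩ : ∃ ρ' : ℝ, 0 < ρ' ∧ ENNReal.ofReal ρ' ≤ ρ := by
    rcases eq_or_ne ρ ⊤ with h | h
    · exact ⟨1, one_pos, by rw [h]; exact le_top⟩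
    · refine ⟨ρ.toReal, ENNReal.toReal_pos hp.r_pos.ne' h, ?_⟩
      rw [ENNReal.ofReal_toReal h]
  set δ := min (ρ'/4) ((c-σ)/2) with hδ
  have hδ0 : 0 < δ := lt_min (by positivity) (by linarith)
  have hδ1 : δ ≤ ρ'/4 := min_le_left _ _
  have hδ2 : δ ≤ (c-σ)/2 := min_le_right _ _
  have hnn : (‖δ‖₊ : ENNReal) = ENNReal.ofReal δ := by
    rw [← ENNReal.ofReal_coe_nnreal, coe_nnnorm, Real.norm_eq_abs, abs_of_pos hδ0]
  have hlt : (‖δ‖₊ : ENNReal) < ρ := by
    rw [hnn]
    refine lt_of_lt_of_le ?_ hρ'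
    rw [ENNReal.ofReal_lt_ofReal_iff hρ'0]
    linarith
  have hp2 := hp.changeOrigin hlt
  set q := p.changeOrigin δ with hq
  have hrad : ENNReal.ofReal (3*δ) ≤ ρ - ‖δ‖₊ := by
    rw [hnn]
    calc ENNReal.ofReal (3*δ) ≤ ENNReal.ofReal (ρ' - δ) := ENNReal.ofReal_le_ofReal (by linarith)
      _ = ENNReal.ofReal ρ' - ENNReal.ofReal δ := ENNReal.ofReal_sub _ hδ0.le
      _ ≤ ρ - ENNReal.ofReal δ := tsub_le_tsub_right hρ' _
  have hrad2 : ENNReal.ofReal (3*δ) ≤ q.radius := hrad.trans hp2.r_le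
  have hsum : Summable fun n : ℕ => ‖q n fun _ => (2*δ)‖ := by
    apply q.summable_norm_apply
    rw [mem_eball_zero_iff]
    refine lt_of_lt_of_le ?_ hrad2
    rw [← ofReal_norm, Real.norm_eq_abs, abs_of_pos (by positivity), ENNReal.ofReal_lt_ofReal_iff (by positivity)]
    linarith
  set t := σ + δ with ht
  have htI : t ∈ I := hmem t (by linarith) (by linarith)
  have hFm : F =ᶠ[𝓝 t] mgf id ν := by
    have : Ioo σ c ∈ 𝓝 t := Ioo_mem_nhds (by linarith) (by linarith)
    filter_upwards [this] with x hx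
    exact heq ⟨hx.1, hx.2.le⟩
  have hcoef : ∀ n : ℕ, ‖q n fun _ => (2*δ)‖ = |∫ x, x^n * Real.exp (t * x) ∂ν| * (2*δ)^n / (n.factorial : ℝ) := by
    intro n
    have h1 := hp2.factorial_smul (2*δ) n
    have h2 : iteratedFDeriv ℝ n F (σ+δ) (fun _ => 2*δ) = (2*δ)^n * iteratedDeriv n F t := by
      rw [iteratedFDeriv_apply_eq_iteratedDeriv_mul_prod]
      simp [ht]
    rw [h2, hFm.iteratedDeriv_eq n, iteratedDeriv_mgf htI n] at h1
    have h3 : (q n fun _ => (2*δ)) = (2*δ)^n * (∫ x, x^n * Real.exp (t * x) ∂ν) / (n.factorial : ℝ) := by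
      rw [eq_div_iff (by positivity)]
      rw [nsmul_eq_mul] at h1
      simp only [id] at h1
      rw [← h1]; ring
    rw [h3, Real.norm_eq_abs, abs_div, abs_mul, abs_of_pos (show (0:ℝ) < (2*δ)^n by positivity),
      abs_of_pos (show (0:ℝ) < (n.factorial : ℝ) by positivity)]
    ring
  simp only [hcoef] at hsum
  -- even terms
  have hsum2 : Summable fun k : ℕ => ∫ x, Real.exp (t*x) * ((2*δ*x)^(2*k) / ((2*k).factorial : ℝ)) ∂ν := by
    have h1 : Summable fun k : ℕ => |∫ x, x^(2*k) * Real.exp (t * x) ∂ν| * (2*δ)^(2*k) / ((2*k).factorial : ℝ) :=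
      hsum.comp_injective (i := fun k : ℕ => 2*k) (fun a b h => by simpa using h)
    refine h1.congr ?_
    intro k
    have h2 : 0 ≤ ∫ x, x^(2*k) * Real.exp (t * x) ∂ν := by
      apply integral_nonneg
      intro x
      have : 0 ≤ x^(2*k) := by rw [pow_mul]; positivity
      positivity
    rw [abs_of_nonneg h2, mul_div_assoc, ← integral_mul_const]
    congr 1
    ext x
    rw [mul_pow]; ring
  have hint : ∀ k : ℕ, Integrable (fun x => Real.exp (t*x) * ((2*δ*x)^(2*k) / ((2*k).factorial : ℝ))) ν := by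
    intro k
    have h1 := integrable_pow_mul_exp_of_mem_interior_integrableExpSet htI (2*k)
    have h2 := h1.mul_const ((2*δ)^(2*k) / ((2*k).factorial : ℝ))
    refine h2.congr (ae_of_all _ fun x => ?_)
    simp only [id]
    rw [mul_pow]; ring
  have hcosh : Integrable (fun x => Real.exp (t*x) * Real.cosh (2*δ*x)) ν := by
    refine ⟨by fun_prop, ?_⟩
    rw [hasFiniteIntegral_iff_ofReal (ae_of_all _ fun x => by positivity)]
    have h1 : ∀ x : ℝ, ENNReal.ofReal (Real.exp (t*x) * Real.cosh (2*δ*x)) =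
        ∑' k : ℕ, ENNReal.ofReal (Real.exp (t*x) * ((2*δ*x)^(2*k) / ((2*k).factorial : ℝ))) := by
      intro x
      have h2 := (Real.hasSum_cosh (2*δ*x)).mul_left (Real.exp (t*x))
      rw [← h2.tsum_eq, ENNReal.ofReal_tsum_of_nonneg _ h2.summable]
      intro k
      have : 0 ≤ (2*δ*x)^(2*k) := by rw [pow_mul]; positivity
      positivity
    simp only [h1]
    rw [lintegral_tsum (fun k => by fun_prop)]
    have h3 : ∀ k : ℕ, ∫⁻ x, ENNReal.ofReal (Real.exp (t*x) * ((2*δ*x)^(2*k) / ((2*k).factorial : ℝ))) ∂ν =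
        ENNReal.ofReal (∫ x, Real.exp (t*x) * ((2*δ*x)^(2*k) / ((2*k).factorial : ℝ)) ∂ν) := by
      intro k
      rw [ofReal_integral_eq_lintegral_ofReal (hint k) (ae_of_all _ fun x => ?_)]
      have : 0 ≤ (2*δ*x)^(2*k) := by rw [pow_mul]; positivity
      positivity
    simp only [h3]
    rw [← ENNReal.ofReal_tsum_of_nonneg _ hsum2]
    · exact ENNReal.ofReal_lt_top
    · intro k
      apply integral_nonneg
      intro x
      have : 0 ≤ (2*δ*x)^(2*k) := by rw [pow_mul]; positivity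
      simp only [Pi.zero_apply]
      positivity
  have hleft : σ - δ ∈ integrableExpSet id ν := by
    unfold integrableExpSet
    simp only [Set.mem_ofPred_eq, id]
    refine (hcosh.const_mul 2).mono' (by fun_prop) (ae_of_all _ fun x => ?_)
    rw [Real.norm_eq_abs, abs_of_pos (Real.exp_pos _), Real.cosh_eq]
    have h1 : Real.exp ((σ-δ)*x) = Real.exp (t*x) * Real.exp (-(2*δ*x)) := by
      rw [← Real.exp_add, ht]; congr 1; ring
    rw [h1]
    have h2 := Real.exp_pos (2*δ*x)
    have h3 := Real.exp_pos (t*x)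
    nlinarith
  have hcS : c ∈ integrableExpSet id ν := interior_subset hc
  have hsub : Ioo (σ-δ) c ⊆ integrableExpSet id ν := fun x hx =>
    hSconv.ordConnected.out hleft hcS ⟨hx.1.le, hx.2.le⟩
  exact hσI (interior_maximal hsub isOpen_Ioo ⟨by linarith, hσc⟩)

lemma aux_alg2 (a b x S C : ℝ) (hS : S ≠ 0) :
    (b - a * (3 * C) / S)^2 + (x + 9) * a^2 = b * b + a * (x * a) -
      (((2:ℕ) * a^(2-1) * b * (3 * C) + a^2 * (3 * (-S * 3))) * S - a^2 * (3 * C) * (C * 3)) / S^2 := by
  field_simp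
  push_cast
  ring

section sturm
variable {y y' : ℝ → ℝ} (hy : ∀ x, HasDerivAt y (y' x) x) (hy' : ∀ x, HasDerivAt y' (x * y x) x)
include hy hy'

/-- every solution of `y'' = x y` that is real has a nonpositive value on `[-1-π,-1]` -/
lemma sturm_zero : ∃ x ∈ Icc (-1 - Real.pi) (-1 : ℝ), y x ≤ 0 := by
  by_contra! hcon
  set W : ℝ → ℝ := fun x => y x * Real.cos (x + 1 + Real.pi) - y' x * Real.sin (x + 1 + Real.pi) with hW
  have hWd : ∀ x, HasDerivAt W (-(1 + x) * (y x * Real.sin (x + 1 + Real.pi))) x := by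
    intro x
    have h1 : HasDerivAt (fun x : ℝ => Real.cos (x + 1 + Real.pi)) (-Real.sin (x + 1 + Real.pi)) x := by
      simpa using (((hasDerivAt_id x).add_const 1).add_const Real.pi).cos
    have h2 : HasDerivAt (fun x : ℝ => Real.sin (x + 1 + Real.pi)) (Real.cos (x + 1 + Real.pi)) x := by
      simpa using (((hasDerivAt_id x).add_const 1).add_const Real.pi).sin
    have h3 := ((hy x).mul h1).sub ((hy' x).mul h2)
    convert! h3 using 1
    ring
  have hmono : MonotoneOn W (Icc (-1 - Real.pi) (-1)) := by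
    apply monotoneOn_of_deriv_nonneg (convex_Icc _ _)
    · exact fun x _ => (hWd x).continuousAt.continuousWithinAt
    · exact fun x _ => (hWd x).differentiableAt.differentiableWithinAt
    · intro x hx
      rw [interior_Icc] at hx
      rw [(hWd x).deriv]
      have h1 := hcon x ⟨hx.1.le, hx.2.le⟩
      have h2 : 0 ≤ Real.sin (x + 1 + Real.pi) := by
        apply Real.sin_nonneg_of_nonneg_of_le_pi
        · have := hx.1; linarith
        · have := hx.2; linarith
      have h3 : 0 ≤ -(1 + x) := by have := hx.2; linarith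
      positivity
  have hpi := Real.pi_pos
  have h1 := hmono ⟨le_rfl, by linarith⟩ ⟨by linarith, le_rfl⟩ (show -1 - Real.pi ≤ -1 by linarith)
  have h2 := hcon (-1 - Real.pi) ⟨le_rfl, by linarith⟩
  have h3 := hcon (-1) ⟨by linarith, le_rfl⟩
  have h4 : W (-1 - Real.pi) = y (-1 - Real.pi) := by
    rw [hW]; simp only
    rw [show -1 - Real.pi + 1 + Real.pi = 0 by ring]
    simp
  have h5 : W (-1) = - y (-1) := by
    rw [hW]; simp only
    rw [show (-1:ℝ) + 1 + Real.pi = Real.pi by ring]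
    simp
  rw [h4, h5] at h1
  linarith

/-- slope at a zero -/
lemma slope_pos {x₀ : ℝ} (hx₀ : x₀ < 0) (h0 : y x₀ = 0) (hpos : ∀ x ∈ Ioc x₀ 0, 0 < y x) : 0 < y' x₀ := by
  by_contra! hcon
  have hanti : AntitoneOn y' (Icc x₀ 0) := by
    apply antitoneOn_of_deriv_nonpos (convex_Icc _ _)
    · exact fun x _ => (hy' x).continuousAt.continuousWithinAt
    · exact fun x _ => (hy' x).differentiableAt.differentiableWithinAt
    · intro x hx
      rw [interior_Icc] at hx
      rw [(hy' x).deriv]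
      have := hpos x ⟨hx.1, hx.2.le⟩
      have := hx.2
      nlinarith
  have hanti2 : AntitoneOn y (Icc x₀ 0) := by
    apply antitoneOn_of_deriv_nonpos (convex_Icc _ _)
    · exact fun x _ => (hy x).continuousAt.continuousWithinAt
    · exact fun x _ => (hy x).differentiableAt.differentiableWithinAt
    · intro x hx
      rw [interior_Icc] at hx
      rw [(hy x).deriv]
      exact (hanti ⟨le_rfl, hx₀.le⟩ ⟨hx.1.le, hx.2.le⟩ hx.1.le).trans hcon
  have h1 := hanti2 ⟨le_rfl, hx₀.le⟩ ⟨hx₀.le, le_rfl⟩ hx₀.le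
  have h2 := hpos 0 ⟨hx₀, le_rfl⟩
  linarith

/-- no other zero within distance `1` on the left -/
lemma sturm_gap {x₀ x₁ : ℝ} (h5 : -5 ≤ x₁) (h1 : x₀ - 4/5 ≤ x₁) (h2 : x₁ < x₀) (h0 : y x₀ = 0) (hs : 0 < y' x₀) :
    y x₁ ≠ 0 := by
  intro hz
  have hpi : 3.14 < Real.pi := Real.pi_gt_d2
  have hsin : ∀ x ∈ Icc x₁ x₀, 0 < Real.sin (3 * (x - x₁) + 1/10) := by
    intro x hx
    apply Real.sin_pos_of_pos_of_lt_pi
    · have := hx.1; linarith
    · have := hx.2; linarith
  set Φ : ℝ → ℝ := fun x => y x * y' x - (y x)^2 * (3 * Real.cos (3 * (x - x₁) + 1/10)) / Real.sin (3 * (x - x₁) + 1/10) with hΦ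
  have hd : ∀ x ∈ Icc x₁ x₀, HasDerivAt Φ ((y' x - y x * (3 * Real.cos (3 * (x - x₁) + 1/10)) / Real.sin (3 * (x - x₁) + 1/10))^2 + (x + 9) * (y x)^2) x := by
    intro x hx
    have hsx := hsin x hx
    have h6 : HasDerivAt (fun x : ℝ => 3 * (x - x₁) + 1/10) 3 x := by
      simpa using (((hasDerivAt_id x).sub_const x₁).const_mul 3).add_const (1/10)
    have h7 := h6.cos.const_mul 3
    have h8 := h6.sin
    have h9 := ((hy x).mul (hy' x)).sub ((((hy x).pow 2).mul h7).div h8 hsx.ne')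
    convert! h9 using 1
    simp only [Pi.pow_apply, Pi.mul_apply]
    exact aux_alg2 (y x) (y' x) x _ _ hsx.ne'
  have hmono : MonotoneOn Φ (Icc x₁ x₀) := by
    apply monotoneOn_of_deriv_nonneg (convex_Icc _ _)
    · exact fun x hx => (hd x hx).continuousAt.continuousWithinAt
    · intro x hx
      rw [interior_Icc] at hx
      exact (hd x ⟨hx.1.le, hx.2.le⟩).differentiableAt.differentiableWithinAt
    · intro x hx
      rw [interior_Icc] at hx
      rw [(hd x ⟨hx.1.le, hx.2.le⟩).deriv]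
      have : 0 ≤ x + 9 := by have := hx.1; linarith
      positivity
  have hΦ1 : Φ x₁ = 0 := by rw [hΦ]; simp [hz]
  have hΦ0 : Φ x₀ = 0 := by rw [hΦ]; simp [h0]
  have hconst : ∀ x ∈ Icc x₁ x₀, Φ x = 0 := by
    intro x hx
    apply le_antisymm
    · rw [← hΦ0]; exact hmono hx ⟨h2.le, le_rfl⟩ hx.2
    · rw [← hΦ1]; exact hmono ⟨le_rfl, h2.le⟩ hx hx.1
  have hyz : ∀ x ∈ Ioo x₁ x₀, y x = 0 := by
    intro x hx
    have h6 : Φ =ᶠ[𝓝 x] fun _ => 0 := by
      filter_upwards [Ioo_mem_nhds hx.1 hx.2] with z hz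
      exact hconst z ⟨hz.1.le, hz.2.le⟩
    have h7 := (hd x ⟨hx.1.le, hx.2.le⟩).deriv
    rw [h6.deriv_eq, deriv_const] at h7
    have h8 : 0 < x + 9 := by have := hx.1; linarith
    have h9 : 0 ≤ (y' x - y x * (3 * Real.cos (3 * (x - x₁) + 1/10)) / Real.sin (3 * (x - x₁) + 1/10))^2 := sq_nonneg _
    have h10 : (x+9) * (y x)^2 ≤ 0 := by linarith
    have h11 : (y x)^2 ≤ 0 := by
      by_contra! h12
      have : 0 < (x+9) * (y x)^2 := by positivity
      linarith
    nlinarith [sq_nonneg (y x)]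
  have hyz' : ∀ x ∈ Ioo x₁ x₀, y' x = 0 := by
    intro x hx
    have h6 : y =ᶠ[𝓝 x] fun _ => 0 := by
      filter_upwards [Ioo_mem_nhds hx.1 hx.2] with z hz
      exact hyz z hz
    rw [← (hy x).deriv, h6.deriv_eq, deriv_const]
  have hcl : x₀ ∈ closure (Ioo x₁ x₀) := by
    rw [closure_Ioo h2.ne]; exact ⟨h2.le, le_rfl⟩
  have hcont : Continuous y' := continuous_iff_continuousAt.2 fun x => (hy' x).continuousAt
  have hclosed : IsClosed {x | y' x = 0} := isClosed_eq hcont continuous_const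
  have : closure (Ioo x₁ x₀) ⊆ {x | y' x = 0} := closure_minimal (fun x hx => hyz' x hx) hclosed
  have h13 : y' x₀ = 0 := this hcl
  linarith

end sturm

/-! ### convexity at `-∞` -/

section
variable {g : ℝ → ℝ} (hpos : ∀ z, 0 < g z)
include hpos

lemma lim_ratio {κ : ℝ} (hlim : ∀ h : ℝ, 0 < h → Tendsto (R g h) atBot (𝓝 (Real.exp (κ * h)))) (z : ℝ) :
    Tendsto (fun a => g (2*a - z) / g (2*a)) atBot (𝓝 (Real.exp (-(κ * z)))) := by
  have h2a : Tendsto (fun a : ℝ => 2*a) atBot atBot := tendsto_id.const_mul_atBot (by norm_num)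
  rcases lt_trichotomy z 0 with hz | hz | hz
  · have h1 := (hlim (-z) (by linarith)).comp h2a
    have h2 : (R g (-z) ∘ fun a => 2*a) = fun a => g (2*a - z) / g (2*a) := by
      ext a; simp [R, sub_eq_add_neg]
    rw [h2] at h1
    convert h1 using 2
    congr 1; ring
  · subst hz
    have : (fun a => g (2*a - 0) / g (2*a)) = fun _ => 1 := by
      ext a; rw [sub_zero, div_self (hpos _).ne']
    rw [this]; simp
  · have h1 := (hlim z hz).comp (tendsto_atBot_add_const_right _ (-z) h2a)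
    have h2 := h1.inv₀ (Real.exp_pos _).ne'
    have h3 : (fun a => ((R g z ∘ fun a => 2*a + -z) a)⁻¹) = fun a => g (2*a - z) / g (2*a) := by
      ext a; simp only [R, Function.comp]
      rw [inv_div, show 2*a + -z + z = 2*a by ring, ← sub_eq_add_neg]
    rw [h3] at h2
    rwa [Real.exp_neg]

lemma limit_convex (hf : ∀ a : ℝ, ∃ G : ℝ → ℝ, AntitoneOn G (Ioi 2) ∧ ConvexOn ℝ (Ioi 2) G ∧
      ∀ t : ℝ, t ≠ 0 → g (a + t) * g (a - t) = G (2 * Real.cosh t)) {κ : ℝ}
    (hlim : ∀ h : ℝ, 0 < h → Tendsto (R g h) atBot (𝓝 (Real.exp (κ * h)))) {z₁ z₂ z₃ : ℝ} (h12 : z₁ < z₂) (h23 : z₂ < z₃) :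
    (Real.exp z₃ - Real.exp z₁) * (g z₂ * Real.exp (-(κ * z₂))) ≤
      (Real.exp z₃ - Real.exp z₂) * (g z₁ * Real.exp (-(κ * z₁))) +
      (Real.exp z₂ - Real.exp z₁) * (g z₃ * Real.exp (-(κ * z₃))) := by
  have hE : ∀ z : ℝ, Tendsto (fun a => Real.exp a * (2 * Real.cosh (z - a))) atBot (𝓝 (Real.exp z)) := by
    intro z
    have h1 : ∀ a, Real.exp a * (2 * Real.cosh (z - a)) = Real.exp z + Real.exp (2*a - z) := by
      intro a
      rw [Real.cosh_eq]
      have h2 : Real.exp a * Real.exp (z-a) = Real.exp z := by rw [← Real.exp_add]; ring_nf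
      have h3 : Real.exp a * Real.exp (-(z-a)) = Real.exp (2*a-z) := by rw [← Real.exp_add]; ring_nf
      rw [← h2, ← h3]; ring
    simp only [h1]
    have h2a : Tendsto (fun a : ℝ => 2*a - z) atBot atBot := by
      have : Tendsto (fun a : ℝ => 2*a) atBot atBot := tendsto_id.const_mul_atBot (by norm_num)
      exact tendsto_atBot_add_const_right _ (-z) this
    have h4 := (Real.tendsto_exp_atBot.comp h2a).const_add (Real.exp z)
    simpa using h4
  have hr := lim_ratio hpos hlim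
  have hL := ((hE z₃).sub (hE z₁)).mul ((hr z₂).const_mul (g z₂))
  have hR1 := ((hE z₃).sub (hE z₂)).mul ((hr z₁).const_mul (g z₁))
  have hR2 := ((hE z₂).sub (hE z₁)).mul ((hr z₃).const_mul (g z₃))
  refine le_of_tendsto_of_tendsto hL (hR1.add hR2) ?_
  filter_upwards [eventually_lt_atBot z₁] with a ha
  obtain ⟨G, _, hG, hG2⟩ := hf a
  have e1 := hG2 (z₁ - a) (by linarith)
  have e2 := hG2 (z₂ - a) (by linarith)
  have e3 := hG2 (z₃ - a) (by linarith)
  rw [show a + (z₁ - a) = z₁ by ring, show a - (z₁ - a) = 2*a - z₁ by ring] at e1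
  rw [show a + (z₂ - a) = z₂ by ring, show a - (z₂ - a) = 2*a - z₂ by ring] at e2
  rw [show a + (z₃ - a) = z₃ by ring, show a - (z₃ - a) = 2*a - z₃ by ring] at e3
  have hw : ∀ s t : ℝ, 0 ≤ s → s < t → Real.cosh s < Real.cosh t := by
    intro s t hs hst
    rw [Real.cosh_lt_cosh, abs_of_nonneg hs, abs_of_pos (by linarith)]
    exact hst
  have hc := hG.secant_mono_aux1 (two_lt (show z₁ - a ≠ 0 by linarith)) (two_lt (show z₃ - a ≠ 0 by linarith))
    (y := 2 * Real.cosh (z₂ - a)) (by linarith [hw (z₁-a) (z₂-a) (by linarith) (by linarith)])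
    (by linarith [hw (z₂-a) (z₃-a) (by linarith) (by linarith)])
  rw [← e1, ← e2, ← e3] at hc
  have h2a := hpos (2*a)
  have hmul := mul_le_mul_of_nonneg_left hc (show 0 ≤ Real.exp a / g (2*a) by positivity)
  calc (Real.exp a * (2 * Real.cosh (z₃ - a)) - Real.exp a * (2 * Real.cosh (z₁ - a))) * (g z₂ * (g (2*a - z₂) / g (2*a)))
      = Real.exp a / g (2*a) * ((2 * Real.cosh (z₃ - a) - 2 * Real.cosh (z₁ - a)) * (g z₂ * g (2*a - z₂))) := by
        field_simp
    _ ≤ _ := hmul
    _ = _ := by field_simp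

end

lemma drop_bound {K : ℝ → ℝ} (hK : ∀ z₁ z₂ z₃ : ℝ, z₁ < z₂ → z₂ < z₃ →
    (Real.exp z₃ - Real.exp z₁) * K z₂ ≤ (Real.exp z₃ - Real.exp z₂) * K z₁ + (Real.exp z₂ - Real.exp z₁) * K z₃)
    {h z : ℝ} (hh : 0 < h) (hz : z ≤ 0) : Real.exp z * (K 0 - K h) ≤ K z - K (z + h) := by
  set q : ℝ → ℝ := fun y => K (Real.log y) with hq
  have hconv : ConvexOn ℝ (Ioi 0) q := by
    apply convexOn_of_slope_mono_adjacent (convex_Ioi 0)
    intro x y z hx hz hxy hyz
    have hx' : 0 < x := hx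
    have hy' : 0 < y := by linarith
    have hz' : 0 < z := hz
    have h1 := hK (Real.log x) (Real.log y) (Real.log z) (Real.log_lt_log hx' hxy) (Real.log_lt_log hy' hyz)
    rw [Real.exp_log hx', Real.exp_log hy', Real.exp_log hz'] at h1
    rw [div_le_div_iff₀ (by linarith) (by linarith)]
    simp only [hq]
    nlinarith
  have hH : 1 < Real.exp h := Real.one_lt_exp_iff.2 hh
  have hy := Real.exp_pos z
  have hy1 : Real.exp z ≤ 1 := Real.exp_le_one_iff.2 hz
  have s1 := hconv.secant_mono (a := Real.exp z) (x := Real.exp z * Real.exp h) (y := Real.exp h)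
    hy (by simp only [mem_Ioi]; positivity) (by simp only [mem_Ioi]; positivity) (by nlinarith) (by linarith) (by nlinarith)
  have s2 := hconv.secant_mono (a := Real.exp h) (x := Real.exp z) (y := 1)
    (by simp only [mem_Ioi]; positivity) hy (by simp) (by linarith) (by linarith) hy1
  have e1 : q (Real.exp z) = K z := by simp [hq]
  have e2 : q (Real.exp z * Real.exp h) = K (z + h) := by rw [← Real.exp_add]; simp [hq]
  have e3 : q (Real.exp h) = K h := by simp [hq]
  have e4 : q 1 = K 0 := by simp [hq]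
  rw [e1, e2, e3] at s1
  rw [e1, e3, e4] at s2
  have s3 : (K (z+h) - K z) / (Real.exp z * Real.exp h - Real.exp z) ≤ (K 0 - K h) / (1 - Real.exp h) := by
    refine s1.trans ?_
    have : (K h - K z) / (Real.exp h - Real.exp z) = (K z - K h) / (Real.exp z - Real.exp h) := by
      rw [← neg_sub (K z) (K h), ← neg_sub (Real.exp z) (Real.exp h), neg_div_neg_eq]
    rw [this]; exact s2
  have h5 : (K 0 - K h) / (1 - Real.exp h) = -(K 0 - K h) / (Real.exp h - 1) := by
    rw [← neg_sub (Real.exp h) 1, div_neg, neg_div]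
  rw [h5, show Real.exp z * Real.exp h - Real.exp z = Real.exp z * (Real.exp h - 1) by ring] at s3
  have hH' : 0 < Real.exp h - 1 := by linarith
  rw [div_le_div_iff₀ (by positivity) hH'] at s3
  have s4 : (K (z+h) - K z) * (Real.exp h - 1) ≤ (-(K 0 - K h) * Real.exp z) * (Real.exp h - 1) := by
    linarith
  have s5 := le_of_mul_le_mul_right s4 hH'
  linarith

/-! ### the measures -/

lemma integrable_wd {D : ℝ → ℝ} (hD : ∀ z, 0 ≤ D z) (hint : Integrable D) {f : ℝ → ℝ} :
    Integrable f (volume.withDensity fun z => ENNReal.ofReal (D z)) ↔ Integrable (fun z => f z * D z) := by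
  rw [integrable_withDensity_iff_integrable_smul₀' hint.1.aemeasurable.ennreal_ofReal (ae_of_all _ fun z => ENNReal.ofReal_lt_top)]
  simp only [ENNReal.toReal_ofReal (hD _), smul_eq_mul, mul_comm]

lemma exp_set {D : ℝ → ℝ} (hD : ∀ z, 0 ≤ D z) (hint : Integrable D) :
    integrableExpSet id (volume.withDensity fun z => ENNReal.ofReal (D z)) = EE D := by
  ext s
  unfold integrableExpSet EE
  simp only [mem_ofPred_eq, id]
  exact integrable_wd hD hint

lemma mgf_wd {D : ℝ → ℝ} (hD : ∀ z, 0 ≤ D z) (hint : Integrable D) (s : ℝ) :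
    mgf id (volume.withDensity fun z => ENNReal.ofReal (D z)) s = ∫ z, Real.exp (s * z) * D z := by
  unfold mgf
  rw [integral_withDensity_eq_integral_toReal_smul₀ hint.1.aemeasurable.ennreal_ofReal (ae_of_all _ fun z => ENNReal.ofReal_lt_top)]
  simp only [ENNReal.toReal_ofReal (hD _), smul_eq_mul, id]
  congr 1; ext z; ring

lemma cmgf_wd {D : ℝ → ℝ} (hD : ∀ z, 0 ≤ D z) (hint : Integrable D) (s : ℂ) :
    complexMGF id (volume.withDensity fun z => ENNReal.ofReal (D z)) s = ∫ z : ℝ, Complex.exp (s * z) * (D z : ℂ) := by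
  unfold complexMGF
  rw [integral_withDensity_eq_integral_toReal_smul₀ hint.1.aemeasurable.ennreal_ofReal (ae_of_all _ fun z => ENNReal.ofReal_lt_top)]
  simp only [ENNReal.toReal_ofReal (hD _), id]
  congr 1; ext z; rw [Complex.real_smul]; ring

/-- the identity `M(s) Ai(c s) = 2^{1/3}` on an interval -/
lemma identity {Ai : ℂ → ℂ} (hAi : Differentiable ℂ Ai) (hAi0 : Ai 0 ≠ 0) {g : ℝ → ℝ} (hpos : ∀ z, 0 < g z) (hint : Integrable g)
    {c C : ℝ} 
    (hFT : ∀ l : ℝ, ∫ s : ℝ, Complex.exp (Complex.I * l * s) * (g s : ℂ) = (C : ℂ) / Ai (Complex.I * c * l))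
    {α ε : ℝ} (hα : α < 0) (hε : 0 < ε) (hE : Ioo α ε ⊆ EE g) {s : ℝ} (hs : s ∈ Ioo α ε) :
    ((∫ z : ℝ, Real.exp (s * z) * g z : ℝ) : ℂ) * Ai ((c * s : ℝ) : ℂ) = C := by
  set μ : Measure ℝ := volume.withDensity fun z => ENNReal.ofReal (g z) with hμ
  have hg0 : ∀ z, 0 ≤ g z := fun z => (hpos z).le
  have hset : integrableExpSet id μ = EE g := exp_set hg0 hint
  set U : Set ℂ := {z : ℂ | z.re ∈ Ioo α ε} with hU
  have hUint : ∀ z ∈ U, z.re ∈ interior (integrableExpSet id μ) := by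
    intro z hz
    rw [hset]
    exact interior_maximal hE isOpen_Ioo hz
  have hUconv : Convex ℝ U := by
    have : U = Complex.reLm ⁻¹' (Ioo α ε) := by ext z; simp [hU]
    rw [this]
    exact (convex_Ioo α ε).linear_preimage _
  have hf : AnalyticOnNhd ℂ (fun z => complexMGF id μ z * Ai (c * z)) U := by
    intro z hz
    refine (analyticAt_complexMGF (hUint z hz)).mul ?_
    have : Differentiable ℂ (fun z : ℂ => Ai (c * z)) := hAi.comp (by fun_prop)
    exact this.analyticAt z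
  have hconst : AnalyticOnNhd ℂ (fun _ : ℂ => (C : ℂ)) U := fun z _ => analyticAt_const
  have h0 : (0:ℂ) ∈ U := ⟨by simpa using hα, by simpa using hε⟩
  have hfreq : ∃ᶠ z in 𝓝[≠] (0:ℂ), complexMGF id μ z * Ai (c * z) = C := by
    have hcont : ContinuousAt (fun l : ℝ => Ai (Complex.I * c * l)) 0 := by
      have := hAi.continuous
      fun_prop
    have hne : ∀ᶠ l : ℝ in 𝓝 0, Ai (Complex.I * c * l) ≠ 0 := by
      apply hcont.eventually_ne
      simpa using hAi0
    have hne2 : ∀ᶠ l : ℝ in 𝓝[≠] 0, Ai (Complex.I * c * l) ≠ 0 := hne.filter_mono nhdsWithin_le_nhds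
    have hmap : Tendsto (fun l : ℝ => Complex.I * (l:ℂ)) (𝓝[≠] 0) (𝓝[≠] 0) := by
      apply tendsto_nhdsWithin_iff.2
      constructor
      · have : Continuous (fun l : ℝ => Complex.I * (l:ℂ)) := by fun_prop
        have h2 := this.tendsto 0
        simp only [Complex.ofReal_zero, mul_zero] at h2
        exact h2.mono_left nhdsWithin_le_nhds
      · filter_upwards [self_mem_nhdsWithin] with l hl
        have : (l:ℂ) ≠ 0 := by exact_mod_cast hl
        simp [this]
    have hall : ∀ᶠ l : ℝ in 𝓝[≠] 0, complexMGF id μ (Complex.I * l) * Ai (c * (Complex.I * l)) = C := by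
      filter_upwards [hne2] with l hl
      rw [cmgf_wd hg0 hint, hFT l, show (c:ℂ) * (Complex.I * l) = Complex.I * c * l by ring]
      field_simp
    exact hmap.frequently (hall.frequently)
  have heq := hf.eqOn_of_preconnected_of_frequently_eq hconst hUconv.isPreconnected h0 hfreq
  have hsU : (s:ℂ) ∈ U := by simpa [hU] using hs
  have h1 := heq hsU
  simp only at h1
  rw [complexMGF_ofReal, mgf_wd hg0 hint] at h1
  rw [← h1]
  push_cast
  rfl

/-! ### the contradiction -/

lemma exists_right {g : ℝ → ℝ} (hpos : ∀ z, 0 < g z) (hint : Integrable g) (hR : ∀ h : ℝ, 0 < h → Antitone (R g h)) :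
    ∃ ε : ℝ, 0 < ε ∧ ∀ s : ℝ, 0 ≤ s → s < ε → s ∈ EE g := by
  have hright : ∃ z, R g 1 z < 1 := by
    by_contra! hcon
    apply not_decr (g := fun z => g (-z)) (fun z => hpos _) hint.comp_neg one_pos
    intro z
    have := hcon (-(z+1))
    unfold R at this
    rwa [one_le_div (hpos _), show -(z+1)+1 = -z by ring] at this
  obtain ⟨z₁, hz₁⟩ := hright
  have hρ₁ := R_pos hpos 1 z₁
  refine ⟨- Real.log (R g 1 z₁), ?_, ?_⟩
  · have := Real.log_neg hρ₁ hz₁
    linarith
  · intro s hs0 hs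
    apply mem_EE_of hpos hint (c := 0) (d := z₁)
    · refine Integrable.mono' (hint.integrableOn (s := Iic 0)) 
        (((Continuous.aestronglyMeasurable (by fun_prop)).mul hint.1).restrict) ?_
      rw [ae_restrict_iff' measurableSet_Iic]
      refine ae_of_all _ fun z hz => ?_
      have := hpos z
      rw [Real.norm_eq_abs, abs_of_pos (by positivity)]
      have h1 : Real.exp (s*z) ≤ 1 := by
        rw [Real.exp_le_one_iff]
        have : z ≤ 0 := hz
        nlinarith
      nlinarith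
    · apply exp_right (fun z => (hpos z).le) hint hρ₁
      · intro z hz
        have := hR 1 one_pos hz
        unfold R at this
        rw [div_le_iff₀ (hpos z)] at this
        exact this
      · rw [← Real.exp_log hρ₁, ← Real.exp_add, Real.exp_lt_one_iff]
        linarith

lemma M_lower {g : ℝ → ℝ} (hpos : ∀ z, 0 < g z) {κ s : ℝ} (hs : -κ < s) (hsE : s ∈ EE g)
    (hK : ∀ z, z ≤ 0 → g 0 * Real.exp (κ * z) ≤ g z) :
    g 0 / (s + κ) ≤ ∫ z, Real.exp (s * z) * g z := by
  have hsκ : 0 < s + κ := by linarith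
  have h1 : ∫ z in Iic (0:ℝ), Real.exp ((s+κ) * z) = 1 / (s+κ) := by
    rw [integral_exp_mul_Iic hsκ]; simp
  have h2 : IntegrableOn (fun z : ℝ => Real.exp ((s+κ) * z)) (Iic 0) := integrableOn_exp_mul_Iic hsκ 0
  calc g 0 / (s + κ) = ∫ z in Iic (0:ℝ), g 0 * Real.exp ((s+κ) * z) := by
        rw [integral_const_mul, h1]; ring
    _ ≤ ∫ z in Iic (0:ℝ), Real.exp (s * z) * g z := by
        apply setIntegral_mono_on (h2.const_mul _) (Integrable.integrableOn hsE) measurableSet_Iic
        intro z hz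
        have h3 := hK z hz
        calc g 0 * Real.exp ((s+κ)*z) = Real.exp (s*z) * (g 0 * Real.exp (κ*z)) := by
              rw [add_mul, Real.exp_add]; ring
          _ ≤ _ := by gcongr
    _ ≤ _ := setIntegral_le_integral hsE (ae_of_all _ fun z => by have := hpos z; positivity)

theorem core {Ai : ℂ → ℂ} (hA : Differentiable ℂ Ai) (hode : ∀ z, deriv (deriv Ai) z = z * Ai z) (hA0 : Ai 0 ≠ 0)
    {g : ℝ → ℝ} (hpos : ∀ z, 0 < g z) (hint : Integrable g) {c C : ℝ} (hc0 : 0 < c) (hc1 : c ≤ 4/5) (hC : 0 < C)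
    (hFT : ∀ l : ℝ, ∫ s : ℝ, Complex.exp (Complex.I * l * s) * (g s : ℂ) = (C : ℂ) / Ai (Complex.I * c * l))
    (hf : ∀ a : ℝ, ∃ G : ℝ → ℝ, AntitoneOn G (Ioi 2) ∧ ConvexOn ℝ (Ioi 2) G ∧
      ∀ t : ℝ, t ≠ 0 → g (a + t) * g (a - t) = G (2 * Real.cosh t)) : False := by
  have hR : ∀ h : ℝ, 0 < h → Antitone (R g h) := fun h hh => R_antitone hpos hf hh
  set y : ℝ → ℝ := fun x => (Ai x).re with hy
  set y' : ℝ → ℝ := fun x => (deriv Ai x).re with hy'
  have hyd : ∀ x, HasDerivAt y (y' x) x := fun x => (hA x).hasDerivAt.real_of_complex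
  have hyd' : ∀ x, HasDerivAt y' (x * y x) x := by
    intro x
    have h1 : DifferentiableAt ℂ (deriv Ai) (x:ℂ) := (hA.analyticAt (x:ℂ)).deriv.differentiableAt
    have h2 := h1.hasDerivAt.real_of_complex
    rw [hode, Complex.re_ofReal_mul] at h2
    exact h2
  -- positivity of y
  have hypos : ∀ α ε : ℝ, α < 0 → 0 < ε → Ioo α ε ⊆ EE g → ∀ s ∈ Ioo α ε, 
      (∫ z : ℝ, Real.exp (s * z) * g z) * y (c * s) = C ∧ 0 < y (c * s) := by
    intro α ε hα hε hE s hs
    have h1 := identity hA hA0 hpos hint hFT hα hε hE hs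
    have h2 := congrArg Complex.re h1
    rw [Complex.re_ofReal_mul, Complex.ofReal_re] at h2
    refine ⟨h2, ?_⟩
    have h3 : 0 ≤ ∫ z : ℝ, Real.exp (s * z) * g z := integral_nonneg fun z => by
      have := hpos z
      simp only [Pi.zero_apply]
      positivity
    by_contra! h4
    have h5 : (∫ z : ℝ, Real.exp (s * z) * g z) * y (c * s) ≤ 0 := mul_nonpos_of_nonneg_of_nonpos h3 h4
    rw [show y (c*s) = (Ai ((c*s : ℝ) : ℂ)).re from rfl] at h5
    linarith
  obtain ⟨x₂, hx₂, hyx₂⟩ := sturm_zero hyd hyd'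
  have hpi := Real.pi_lt_d2
  -- not all moments
  have hE : ∃ s : ℝ, s < 0 ∧ s ∉ EE g := by
    by_contra! hcon
    obtain ⟨ε, hε, hεE⟩ := exists_right hpos hint hR
    have h1 : Ioo (x₂/c - 1) ε ⊆ EE g := by
      intro s hs
      rcases lt_or_ge s 0 with h | h
      · exact hcon s h
      · exact hεE s h hs.2
    have hx2neg : x₂ / c < 0 := div_neg_of_neg_of_pos (by linarith [hx₂.2]) hc0
    have h2 := (hypos (x₂/c-1) ε (by linarith) hε h1 (x₂/c) ⟨by linarith, by linarith⟩).2
    rw [mul_div_cancel₀ _ hc0.ne'] at h2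
    linarith
  obtain ⟨κ, hκ0, hlim, hRle, ε, hε, hEE⟩ := exists_kappa hpos hint hR hE
  have hκneg : -κ < 0 := by linarith
  have hmain := hypos (-κ) ε hκneg hε hEE
  -- bound on κ
  have hκc : c * κ ≤ 1 + Real.pi := by
    by_contra! hcon
    have h1 : x₂ / c ∈ Ioo (-κ) ε := by
      constructor
      · rw [lt_div_iff₀ hc0]; linarith [hx₂.1]
      · have : x₂ / c < 0 := div_neg_of_neg_of_pos (by linarith [hx₂.2]) hc0
        linarith
    have h2 := (hmain _ h1).2
    rw [mul_div_cancel₀ _ hc0.ne'] at h2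
    linarith
  -- K
  set K : ℝ → ℝ := fun z => g z * Real.exp (-(κ * z)) with hKdef
  have hKanti : ∀ z z', z ≤ z' → K z' ≤ K z := by
    intro z z' hz
    rcases hz.eq_or_lt with rfl | hz
    · exact le_rfl
    · have h1 := hRle (z'-z) (by linarith) z
      unfold R at h1
      rw [div_le_iff₀ (hpos z), show z + (z'-z) = z' by ring] at h1
      rw [hKdef]; simp only
      calc g z' * Real.exp (-(κ*z')) ≤ (Real.exp (κ*(z'-z)) * g z) * Real.exp (-(κ*z')) := by gcongr
        _ = g z * (Real.exp (κ*(z'-z)) * Real.exp (-(κ*z'))) := by ring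
        _ = _ := by rw [← Real.exp_add]; congr 2; ring
  have hK0 : ∀ z, z ≤ 0 → g 0 * Real.exp (κ * z) ≤ g z := by
    intro z hz
    have h1 := hKanti z 0 hz
    rw [hKdef] at h1
    simp only [mul_zero, neg_zero, Real.exp_zero, mul_one] at h1
    calc g 0 * Real.exp (κ*z) ≤ (g z * Real.exp (-(κ*z))) * Real.exp (κ*z) := by gcongr
      _ = g z := by rw [mul_assoc, ← Real.exp_add]; simp
  -- zero of Ai at x₀ = -cκ
  set x₀ : ℝ := -(c * κ) with hx₀
  have hx₀neg : x₀ < 0 := by rw [hx₀]; have : 0 < c * κ := by positivity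
                             linarith
  have hAnorm : ∀ s ∈ Ioo (-κ) 0, ‖Ai ((c * s : ℝ) : ℂ)‖ ≤ C / g 0 * (s + κ) := by
    intro s hs
    have hs' : s ∈ Ioo (-κ) ε := ⟨hs.1, hs.2.trans hε⟩
    have h1 := identity hA hA0 hpos hint hFT hκneg hε hEE hs'
    have h2 := M_lower hpos hs.1 (hEE hs') hK0
    have h3 : 0 < s + κ := by linarith [hs.1]
    have h4 := hpos 0
    have h5 : 0 < g 0 / (s+κ) := by positivity
    have h6 : 0 < ∫ z : ℝ, Real.exp (s * z) * g z := h5.trans_le h2
    have h7 := congrArg norm h1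
    rw [norm_mul, Complex.norm_real, Complex.norm_real, Real.norm_eq_abs, Real.norm_eq_abs, abs_of_pos h6, abs_of_pos hC] at h7
    have h8 : g 0 / (s+κ) * ‖Ai ((c * s : ℝ) : ℂ)‖ ≤ C := by
      rw [← h7]; gcongr
    calc ‖Ai ((c * s : ℝ) : ℂ)‖ = (g 0 / (s+κ) * ‖Ai ((c * s : ℝ) : ℂ)‖) * ((s+κ) / g 0) := by field_simp
      _ ≤ C * ((s+κ)/g 0) := by gcongr
      _ = _ := by ring
  have hAx₀ : Ai (x₀ : ℂ) = 0 := by
    have hcont : Continuous (fun s : ℝ => ‖Ai ((c * s : ℝ) : ℂ)‖) := by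
      have := hA.continuous
      fun_prop
    have h1 : Tendsto (fun s : ℝ => ‖Ai ((c * s : ℝ) : ℂ)‖) (𝓝[>] (-κ)) (𝓝 ‖Ai ((c * (-κ) : ℝ) : ℂ)‖) :=
      (hcont.tendsto (-κ)).mono_left nhdsWithin_le_nhds
    have h2 : Tendsto (fun s : ℝ => C / g 0 * (s + κ)) (𝓝[>] (-κ)) (𝓝 (C / g 0 * (-κ + κ))) := by
      have : Continuous (fun s : ℝ => C / g 0 * (s + κ)) := by fun_prop
      exact (this.tendsto (-κ)).mono_left nhdsWithin_le_nhds
    have h3 : ∀ᶠ s in 𝓝[>] (-κ), ‖Ai ((c * s : ℝ) : ℂ)‖ ≤ C / g 0 * (s + κ) := by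
      filter_upwards [Ioo_mem_nhdsGT hκneg] with s hs
      exact hAnorm s hs
    have h4 := le_of_tendsto_of_tendsto h1 h2 h3
    rw [neg_add_cancel, mul_zero] at h4
    have h5 : c * (-κ) = x₀ := by rw [hx₀]; ring
    rw [h5] at h4
    exact norm_le_zero_iff.1 h4
  have hyx₀ : y x₀ = 0 := by rw [hy]; simp [hAx₀]
  have hypos2 : ∀ x ∈ Ioc x₀ 0, 0 < y x := by
    intro x hx
    have h1 : x / c ∈ Ioo (-κ) ε := by
      constructor
      · rw [lt_div_iff₀ hc0]; have := hx.1; rw [hx₀] at this; linarith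
      · have : x / c ≤ 0 := div_nonpos_of_nonpos_of_nonneg hx.2 hc0.le
        linarith
    have h2 := (hmain _ h1).2
    rwa [mul_div_cancel₀ _ hc0.ne'] at h2
  have hslope := slope_pos hyd hyd' hx₀neg hyx₀ hypos2
  -- non-vanishing
  have hnv : ∀ s : ℝ, -κ - 1 ≤ s → s ≤ 0 → s ≠ -κ → Ai ((c * s : ℝ) : ℂ) ≠ 0 := by
    intro s hs1 hs2 hs3 hzero
    have hyz : y (c * s) = 0 := by rw [hy]; simp only; rw [hzero]; simp
    rcases lt_or_gt_of_ne hs3 with h | h
    · refine sturm_gap hyd hyd' (x₀ := x₀) (x₁ := c * s) ?_ ?_ ?_ hyx₀ hslope hyz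
      · nlinarith
      · rw [hx₀]; nlinarith
      · rw [hx₀]; nlinarith
    · have h1 := hypos2 (c*s) ⟨by rw [hx₀]; nlinarith, by nlinarith⟩
      linarith
  -- choose h
  obtain ⟨h, hh, hKh⟩ : ∃ h, 0 < h ∧ K h < K 0 := by
    by_contra! hcon
    have h1 : ∀ z : ℝ, 0 ≤ z → g 0 ≤ g z := by
      intro z hz
      rcases hz.eq_or_lt with rfl | hz
      · exact le_rfl
      · have h2 := hcon z hz
        rw [hKdef] at h2
        simp only [mul_zero, neg_zero, Real.exp_zero, mul_one] at h2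
        have h3 : Real.exp (-(κ*z)) ≤ 1 := by
          rw [Real.exp_le_one_iff]; have : 0 ≤ κ * z := by positivity
          linarith
        have := hpos z
        nlinarith
    have h4 : IntegrableOn (fun _ : ℝ => g 0) (Ici 0) := by
      refine Integrable.mono' (hint.integrableOn (s := Ici 0)) (by fun_prop) ?_
      rw [ae_restrict_iff' measurableSet_Ici]
      refine ae_of_all _ fun z hz => ?_
      rw [Real.norm_eq_abs, abs_of_pos (hpos 0)]
      exact h1 z hz
    rw [integrableOn_const_iff] at h4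
    rcases h4 with h4 | h4
    · exact (hpos 0).ne' (enorm_eq_zero.1 h4)
    · simp at h4
  -- D
  set D : ℝ → ℝ := fun z => g z - Real.exp (-(κ*h)) * g (z+h) with hD
  have hDK : ∀ z, D z = Real.exp (κ*z) * (K z - K (z+h)) := by
    intro z
    rw [hD, hKdef]; simp only
    rw [mul_sub]
    have e1 : Real.exp (κ*z) * (g z * Real.exp (-(κ*z))) = g z := by
      rw [mul_comm (g z), ← mul_assoc, ← Real.exp_add]; simp
    have e2 : Real.exp (κ*z) * (g (z+h) * Real.exp (-(κ*(z+h)))) = Real.exp (-(κ*h)) * g (z+h) := by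
      rw [mul_comm (g (z+h)), ← mul_assoc, ← Real.exp_add]; congr 2; ring
    rw [e1, e2]
  have hD0 : ∀ z, 0 ≤ D z := by
    intro z
    rw [hDK]
    have := hKanti z (z+h) (by linarith)
    have h2 : 0 ≤ K z - K (z+h) := by linarith
    positivity
  have hDint : Integrable D := hint.sub ((hint.comp_add_right h).const_mul _)
  set ν : Measure ℝ := volume.withDensity fun z => ENNReal.ofReal (D z) with hν
  have hshift : ∀ s ∈ EE g, Integrable (fun z => Real.exp (s * z) * (Real.exp (-(κ*h)) * g (z+h))) ∧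
      ∫ z, Real.exp (s * z) * (Real.exp (-(κ*h)) * g (z+h)) = Real.exp (-((κ+s)*h)) * ∫ z, Real.exp (s * z) * g z := by
    intro s hs
    have h1 : (fun z => Real.exp (s * z) * (Real.exp (-(κ*h)) * g (z+h))) = 
        fun z => Real.exp (-((κ+s)*h)) * (Real.exp (s * (z+h)) * g (z+h)) := by
      ext z
      have e1 : Real.exp (s*z) * Real.exp (-(κ*h)) = Real.exp (-((κ+s)*h)) * Real.exp (s * (z+h)) := by
        rw [← Real.exp_add, ← Real.exp_add]; congr 1; ring
      rw [← mul_assoc, e1]; ring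
    have hs' : Integrable (fun z => Real.exp (s * z) * g z) := hs
    rw [h1]
    refine ⟨(hs'.comp_add_right h).const_mul _, ?_⟩
    rw [integral_const_mul]
    congr 1
    exact integral_add_right_eq_self (fun z => Real.exp (s * z) * g z) h
  have hDE : EE g ⊆ EE D := by
    intro s hs
    have h1 := (hshift s hs).1
    have hs' : Integrable (fun z => Real.exp (s * z) * g z) := hs
    have h2 := hs'.sub h1
    refine h2.congr (ae_of_all _ fun z => ?_)
    simp only [hD, Pi.sub_apply]; ring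
  have hDM : ∀ s ∈ EE g, ∫ z, Real.exp (s * z) * D z = (1 - Real.exp (-((κ+s)*h))) * ∫ z, Real.exp (s * z) * g z := by
    intro s hs
    have hs' : Integrable (fun z => Real.exp (s * z) * g z) := hs
    have h1 := hshift s hs
    have h2 : (fun z => Real.exp (s * z) * D z) = fun z => Real.exp (s * z) * g z - Real.exp (s * z) * (Real.exp (-(κ*h)) * g (z+h)) := by
      ext z; simp only [hD]; ring
    rw [h2, integral_sub hs' h1.1, h1.2]; ring
  -- analytic function
  set Ac : ℂ → ℂ := fun z => Ai (c * z) with hAc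
  set nc : ℂ → ℂ := fun z => 1 - Complex.exp (-((κ + z) * h)) with hnc
  have hAcd : Differentiable ℂ Ac := hA.comp (by fun_prop)
  have hncd : Differentiable ℂ nc := by rw [hnc]; fun_prop
  have hAcs : Differentiable ℂ (dslope Ac (-κ : ℂ)) := by
    rw [← differentiableOn_univ]
    exact (Complex.differentiableOn_dslope univ_mem).2 hAcd.differentiableOn
  have hncs : Differentiable ℂ (dslope nc (-κ : ℂ)) := by
    rw [← differentiableOn_univ]
    exact (Complex.differentiableOn_dslope univ_mem).2 hncd.differentiableOn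
  have hAcκ : Ac (-κ : ℂ) = 0 := by
    rw [hAc]; simp only
    rw [← hAx₀, hx₀]; congr 1; push_cast; ring
  have hncκ : nc (-κ : ℂ) = 0 := by rw [hnc]; simp
  have hAcne : ∀ s : ℝ, s ∈ Icc (-κ-1) 0 → dslope Ac (-κ : ℂ) s ≠ 0 := by
    intro s hs
    by_cases hsk : s = -κ
    · rw [hsk]
      push_cast
      rw [dslope_same]
      have h1 : HasDerivAt Ac (deriv Ai (c * (-κ)) * c) (-κ : ℂ) := by
        have h2 : HasDerivAt (fun z : ℂ => (c:ℂ) * z) c (-κ : ℂ) := by
          simpa using (hasDerivAt_id (-κ : ℂ)).const_mul (c:ℂ)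
        exact (hA _).hasDerivAt.comp (-κ : ℂ) h2
      rw [h1.deriv]
      apply mul_ne_zero _ (by exact_mod_cast hc0.ne')
      intro h3
      have h4 : y' x₀ = 0 := by
        rw [hy']; simp only
        rw [hx₀]
        push_cast
        rw [show -((c:ℂ) * κ) = c * (-κ) by ring, h3]; simp
      linarith
    · have hne : (s:ℂ) ≠ -κ := by
        intro h1; apply hsk; exact_mod_cast h1
      rw [dslope_of_ne _ hne, slope_def_field, hAcκ, sub_zero]
      apply div_ne_zero
      · have := hnv s (by linarith [hs.1]) hs.2 hsk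
        rw [hAc]; simp only
        push_cast at this
        exact this
      · exact sub_ne_zero.2 hne
  set F : ℝ → ℝ := fun s => ((C : ℂ) * dslope nc (-κ : ℂ) s / dslope Ac (-κ : ℂ) s).re with hF
  have hFan : AnalyticOnNhd ℝ F (Icc (-κ-1) 0) := by
    intro s hs
    have h1 : AnalyticAt ℂ (fun z : ℂ => (C : ℂ) * dslope nc (-κ : ℂ) z / dslope Ac (-κ : ℂ) z) (s:ℂ) :=
      ((analyticAt_const.mul (hncs.analyticAt _)).div (hAcs.analyticAt _) (hAcne s hs))
    exact h1.re_ofReal
  have hset : integrableExpSet id ν = EE D := exp_set hD0 hDint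
  have h0int : (0:ℝ) ∈ interior (integrableExpSet id ν) := by
    rw [hset]
    exact interior_maximal (hEE.trans hDE) isOpen_Ioo ⟨hκneg, hε⟩
  have hFeq : F =ᶠ[𝓝 0] mgf id ν := by
    filter_upwards [Ioo_mem_nhds hκneg hε] with s hs
    have hsk : s ≠ -κ := hs.1.ne'
    have hne : (s:ℂ) ≠ -κ := by
      intro h1; apply hsk; exact_mod_cast h1
    rw [mgf_wd hD0 hDint, hDM s (hEE hs)]
    have h1 := identity hA hA0 hpos hint hFT hκneg hε hEE hs
    set M := ∫ z : ℝ, Real.exp (s * z) * g z with hM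
    have hA1 : Ac s ≠ 0 := by
      intro h2
      rw [hAc] at h2; simp only at h2
      push_cast at h1
      rw [h2, mul_zero] at h1
      exact hC.ne' (by exact_mod_cast h1.symm)
    have hsub : (s:ℂ) - -κ ≠ 0 := sub_ne_zero.2 hne
    have h2 : (C:ℂ) * dslope nc (-κ : ℂ) s / dslope Ac (-κ : ℂ) s = (((1 - Real.exp (-((κ+s)*h))) * M : ℝ) : ℂ) := by
      rw [dslope_of_ne _ hne, dslope_of_ne _ hne, slope_def_field, slope_def_field, hAcκ, hncκ, sub_zero, sub_zero]
      have h3 : nc s = ((1 - Real.exp (-((κ+s)*h)) : ℝ) : ℂ) := by rw [hnc]; push_cast; rfl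
      have h4 : Ac s = Ai ((c * s : ℝ) : ℂ) := by rw [hAc]; push_cast; rfl
      rw [← h1, h3, ← h4, Complex.ofReal_mul]
      field_simp
    rw [hF]; simp only
    rw [h2, Complex.ofReal_re]
  have hfin := landau ν F (by linarith : -κ-1 ≤ 0) hFan h0int hFeq
  have hfin2 : (-κ-1) ∈ EE D := by rw [← hset]; exact interior_subset hfin
  -- contradiction
  have hlow : ∀ z : ℝ, z ≤ 0 → K 0 - K h ≤ Real.exp ((-κ-1) * z) * D z := by
    intro z hz
    have h1 := drop_bound (K := K) (h := h) (z := z) (fun z₁ z₂ z₃ h12 h23 => limit_convex hpos hf hlim h12 h23) hh hz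
    rw [hDK]
    calc K 0 - K h = Real.exp ((-κ-1)*z) * (Real.exp (κ*z) * (Real.exp z * (K 0 - K h))) := by
          have : Real.exp ((-κ-1)*z) * (Real.exp (κ*z) * Real.exp z) = 1 := by
            rw [← Real.exp_add, ← Real.exp_add]
            rw [Real.exp_eq_one_iff]; ring
          calc K 0 - K h = (Real.exp ((-κ-1)*z) * (Real.exp (κ*z) * Real.exp z)) * (K 0 - K h) := by
                rw [this, one_mul]
            _ = _ := by ring
      _ ≤ _ := by gcongr
  have h6 : IntegrableOn (fun _ : ℝ => K 0 - K h) (Iic 0) := by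
    have h7 : Integrable (fun z => Real.exp ((-κ-1) * z) * D z) := hfin2
    refine Integrable.mono' (h7.integrableOn (s := Iic 0)) (by fun_prop) ?_
    rw [ae_restrict_iff' measurableSet_Iic]
    refine ae_of_all _ fun z hz => ?_
    rw [Real.norm_eq_abs, abs_of_pos (by linarith)]
    exact hlow z hz
  rw [integrableOn_const_iff] at h6
  rcases h6 with h6 | h6
  · have h7 := enorm_eq_zero.1 h6
    linarith
  · simp at h6

/-- The Airy function `Ai`: the entire solution of `Ai'' = z Ai` with its standard values at `0`. -/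
structure IsAiry (Ai : ℂ → ℂ) : Prop where
  differentiable : Differentiable ℂ Ai
  ode : ∀ z, deriv (deriv Ai) z = z * Ai z
  value : Ai 0 = (((3:ℝ) ^ (-(2/3) : ℝ) / Real.Gamma (2/3) : ℝ) : ℂ)
  slope : deriv Ai 0 = ((-((3:ℝ) ^ (-(1/3) : ℝ) / Real.Gamma (1/3)) : ℝ) : ℂ)

/-- Let `Ai` be the Airy function and `g` a positive integrable function with
`∫ e^{iλs} g(s) ds = 2^{1/3} / Ai(i 2^{-1/3} λ)` for all real `λ`.  Then `x ↦ g(log x)/x` is not
in `HM_∞`, that is, `g ∉ log(HM_∞)`. -/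
theorem result (Ai : ℂ → ℂ) (hAi : IsAiry Ai) (g : ℝ → ℝ) (hpos : ∀ z, 0 < g z) (hint : Integrable g)
    (hFT : ∀ l : ℝ, ∫ s : ℝ, Complex.exp (Complex.I * l * s) * (g s : ℂ) =
      (((2:ℝ) ^ (1/3 : ℝ) : ℝ) : ℂ) / Ai (Complex.I * (((2:ℝ) ^ (-(1/3) : ℝ) : ℝ) : ℂ) * l)) :
    ¬ IsHM (fun x => g (Real.log x) / x) := by
  intro hHM
  have hA0 : Ai 0 ≠ 0 := by
    rw [hAi.value, Complex.ofReal_ne_zero]
    have := Real.Gamma_pos_of_pos (show (0:ℝ) < 2/3 by norm_num)
    positivity
  refine core hAi.differentiable hAi.ode hA0 hpos hint (c := (2:ℝ) ^ (-(1/3) : ℝ)) (C := (2:ℝ) ^ (1/3 : ℝ))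
    (by positivity) ?_ (by positivity) hFT (HM_facts hHM)
  rw [Real.rpow_neg (by norm_num), inv_le_comm₀ (by positivity) (by norm_num)]
  rw [show (4/5:ℝ)⁻¹ = ((5/4:ℝ)^(3:ℝ))^(1/3:ℝ) by
    rw [← Real.rpow_mul (by norm_num)]; norm_num]
  apply Real.rpow_le_rpow (by positivity) _ (by norm_num)
  have h3 : (5/4:ℝ)^(3:ℝ) = (5/4:ℝ)^(3:ℕ) := by
    rw [← Real.rpow_natCast]; norm_num
  rw [h3]; norm_num
end Pool.Agent.Results.MP_b46d52_pr.NotHM
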